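import Pool.Agent.Helper30.LQ.St

/-!
# Project LQ, module CNP: the primes `p` such that `(a p) ^ 2 - a p + 1` has no prime factor `≡ 1 (3)` up to `yy x`
-/

set_option autoImplicit false

noncomputable section

namespace Pool.Agent.Helper1.LQ

open Finset Filter Pool.Agent.Helper30.LQ
open Pool.Agent.Helper30.LK (StSVU StMR3)
open Pool.Agent.Helper15.AB (StMT)

open Classical in
/-- the residue classes modulo `l` which are removed -/
private def SS (a : ℕ) (y : ℝ) (l : ℕ) : Finset ℕ :=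
  (range l).filter (fun s : ℕ => s = 0 ∨ (l % 3 = 1 ∧ (l : ℝ) ≤ y ∧
    (l : ℤ) ∣ ((a : ℤ) * (s : ℤ)) ^ 2 - a * s + 1))

private theorem dvd_iff (a l s : ℕ) : (l : ℤ) ∣ ((a : ℤ) * (s : ℤ)) ^ 2 - a * s + 1 ↔
    (((a : ZMod l) * (s : ZMod l)) ^ 2 - a * s + 1 = 0) := by
  rw [← ZMod.intCast_zmod_eq_zero_iff_dvd]
  push_cast
  exact Iff.rfl

private theorem SS_card_le (a : ℕ) (y : ℝ) (l : ℕ) (hl : l.Prime) : (SS a y l).card ≤ 3 := by
  classical
  have : Fact l.Prime := ⟨hl⟩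
  have hinj : Set.InjOn (fun s : ℕ => (s : ZMod l)) (range l) := by
    intro a ha b hb hab
    have h1 := (ZMod.natCast_eq_natCast_iff' a b l).1 hab
    rw [Nat.mod_eq_of_lt (mem_range.1 ha), Nat.mod_eq_of_lt (mem_range.1 hb)] at h1
    exact h1
  obtain ⟨R, hR⟩ : ∃ R : Finset ℕ, R = (range l).filter
    (fun s : ℕ => (l : ℤ) ∣ ((a : ℤ) * (s : ℤ)) ^ 2 - a * s + 1) := ⟨_, rfl⟩
  have h1 : SS a y l ⊆ insert 0 R := by
    intro s hs
    rw [SS, mem_filter] at hs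
    rw [mem_insert]
    rcases hs.2 with h | h
    · exact Or.inl h
    · right
      rw [hR]
      exact mem_filter.2 ⟨hs.1, h.2.2⟩
  have h2 : R.card ≤ 2 := by
    rcases R.eq_empty_or_nonempty with h | ⟨r, hr⟩
    · simp [h]
    · have h3 : R.image (fun s : ℕ => (s : ZMod l)) ⊆
          ({(r : ZMod l), (a : ZMod l)⁻¹ - (r : ZMod l)} : Finset (ZMod l)) := by
        intro t ht
        obtain ⟨s, hs, rfl⟩ := mem_image.1 ht
        rw [hR] at hs hr
        have e1 := (dvd_iff a l s).1 (mem_filter.1 hs).2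
        have e2 := (dvd_iff a l r).1 (mem_filter.1 hr).2
        have ha : (a : ZMod l) ≠ 0 := by
          intro h0
          rw [h0] at e1
          simp at e1
        have e3 : ((s : ZMod l) - r) * ((a : ZMod l) * (s + r) - 1) = 0 := by
          have e4 : (a : ZMod l) * (((s : ZMod l) - r) * ((a : ZMod l) * (s + r) - 1)) = 0 := by
            linear_combination e1 - e2
          rcases mul_eq_zero.1 e4 with h | h
          · exact absurd h ha
          · exact h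
        rw [mem_insert, mem_singleton]
        rcases mul_eq_zero.1 e3 with h | h
        · left
          linear_combination h
        · right
          have h5 : (a : ZMod l)⁻¹ * (a : ZMod l) = 1 := inv_mul_cancel₀ ha
          show (s : ZMod l) = (a : ZMod l)⁻¹ - (r : ZMod l)
          linear_combination (a : ZMod l)⁻¹ * h - ((s : ZMod l) + r) * h5
      rw [← card_image_of_injOn (hinj.mono (by
        intro s hs
        rw [hR] at hs
        exact (mem_filter.1 hs).1))]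
      exact (card_le_card h3).trans card_le_two
  calc (SS a y l).card ≤ (insert 0 R).card := card_le_card h1
    _ ≤ R.card + 1 := card_insert_le _ _
    _ ≤ 3 := by omega

private theorem SS_one (a : ℕ) (y : ℝ) (l : ℕ) (hl : l.Prime) : 1 ≤ (SS a y l).card := by
  classical
  rw [Nat.one_le_iff_ne_zero, card_ne_zero]
  exact ⟨0, mem_filter.2 ⟨mem_range.2 hl.pos, Or.inl rfl⟩⟩

private theorem SS_three (a : ℕ) (y : ℝ) (l : ℕ) (hl : l.Prime) (h3 : l % 3 = 1) (hy : (l : ℝ) ≤ y)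
    (hla : ¬ l ∣ a) : 3 ≤ (SS a y l).card := by
  classical
  have : Fact l.Prime := ⟨hl⟩
  have : Fact (Nat.Prime 3) := ⟨Nat.prime_three⟩
  have hd : 3 ∣ Fintype.card (ZMod l)ˣ := by
    rw [ZMod.card_units]
    have := hl.one_lt
    omega
  obtain ⟨v, hv⟩ := exists_prime_orderOf_dvd_card 3 hd
  have hv3 : (v : ZMod l) ^ 3 = 1 := by
    have h1 : v ^ 3 = 1 := by rw [← hv]; exact pow_orderOf_eq_one v
    have h2 := congrArg (fun w : (ZMod l)ˣ => (w : ZMod l)) h1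
    simpa using h2
  have hv1 : (v : ZMod l) ≠ 1 := by
    intro h
    have h1 : v = 1 := Units.ext h
    rw [h1, orderOf_one] at hv
    omega
  obtain ⟨u, hu⟩ : ∃ u : ZMod l, u = (v : ZMod l) := ⟨_, rfl⟩
  rw [← hu] at hv3 hv1
  have hq : u ^ 2 + u + 1 = 0 := by
    have h1 : (u - 1) * (u ^ 2 + u + 1) = 0 := by linear_combination hv3
    rcases mul_eq_zero.1 h1 with h | h
    · exact absurd (sub_eq_zero.1 h) hv1
    · exact h
  have hu0 : u ≠ 0 := by rw [hu]; exact v.ne_zero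
  have hq2 : (u ^ 2) ^ 2 + u ^ 2 + 1 = 0 := by linear_combination (u ^ 2 - u + 1) * hq
  have hne : u ≠ u ^ 2 := by
    intro h
    have h1 : u * (u - 1) = 0 := by linear_combination -h
    rcases mul_eq_zero.1 h1 with h | h
    · exact hu0 h
    · exact hv1 (sub_eq_zero.1 h)
  have ha : (a : ZMod l) ≠ 0 := by
    intro h
    exact hla ((ZMod.natCast_eq_zero_iff a l).1 h)
  have hai : (a : ZMod l) * (a : ZMod l)⁻¹ = 1 := mul_inv_cancel₀ ha
  have hai0 : (a : ZMod l)⁻¹ ≠ 0 := inv_ne_zero ha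
  have mem : ∀ w : ZMod l, w ^ 2 + w + 1 = 0 → (-w * (a : ZMod l)⁻¹).val ∈ SS a y l := by
    intro w hw
    refine mem_filter.2 ⟨mem_range.2 (ZMod.val_lt _), Or.inr ⟨h3, hy, ?_⟩⟩
    rw [dvd_iff, ZMod.natCast_zmod_val]
    have e : (a : ZMod l) * (-w * (a : ZMod l)⁻¹) = -w := by linear_combination -w * hai
    rw [e]
    linear_combination hw
  have hsub : ({0, (-u * (a : ZMod l)⁻¹).val, (-u ^ 2 * (a : ZMod l)⁻¹).val} : Finset ℕ) ⊆ SS a y l := by
    intro s hs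
    rw [mem_insert, mem_insert, mem_singleton] at hs
    rcases hs with rfl | rfl | rfl
    · exact mem_filter.2 ⟨mem_range.2 hl.pos, Or.inl rfl⟩
    · exact mem u hq
    · exact mem (u ^ 2) hq2
  have hcard : ({0, (-u * (a : ZMod l)⁻¹).val, (-u ^ 2 * (a : ZMod l)⁻¹).val} : Finset ℕ).card = 3 := by
    rw [card_eq_three]
    refine ⟨0, (-u * (a : ZMod l)⁻¹).val, (-u ^ 2 * (a : ZMod l)⁻¹).val, ?_, ?_, ?_, rfl⟩
    · intro h
      exact (mul_ne_zero (neg_ne_zero.2 hu0) hai0) ((ZMod.val_eq_zero _).1 h.symm)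
    · intro h
      exact (mul_ne_zero (neg_ne_zero.2 (pow_ne_zero 2 hu0)) hai0) ((ZMod.val_eq_zero _).1 h.symm)
    · intro h
      have h1 := mul_right_cancel₀ hai0 (ZMod.val_injective l h)
      exact hne (neg_injective h1)
  rw [← hcard]
  exact card_le_card hsub

/-- the lower bound for the sum -/
private theorem sum_ge (a : ℕ) (ha : 1 ≤ a) (y : ℝ) (N : ℕ) (hyN : ⌊y⌋₊ ≤ N) (hy0 : 0 ≤ y) :
    ∑ l ∈ (Icc 1 N).filter Nat.Prime, (1 : ℝ) / l +
      2 * ∑ l ∈ (Icc 1 ⌊y⌋₊).filter (fun l => l.Prime ∧ l % 3 = 1), (1 : ℝ) / l - 2 -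
      2 * ∑ l ∈ a.primeFactors, (1 : ℝ) / l ≤
    ∑ l ∈ (Icc 7 N).filter Nat.Prime, ((SS a y l).card : ℝ) / l := by
  classical
  have a1 : ∑ l ∈ (Icc 1 N).filter Nat.Prime, (1 : ℝ) / l ≤
      ∑ l ∈ (Icc 7 N).filter Nat.Prime, (1 : ℝ) / l + 2 := by
    have hsub : (Icc 1 N).filter Nat.Prime ⊆ (Icc 7 N).filter Nat.Prime ∪ {2, 3, 5} := by
      intro l hl
      obtain ⟨h1, h2⟩ := mem_filter.1 hl
      rw [mem_Icc] at h1
      rw [mem_union, mem_filter, mem_Icc]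
      rcases Nat.lt_or_ge l 7 with h7 | h7
      · right
        obtain ⟨h1, -⟩ := h1
        interval_cases l <;> first | (simp; done) | exact absurd h2 (by norm_num)
      · exact Or.inl ⟨⟨h7, h1.2⟩, h2⟩
    calc ∑ l ∈ (Icc 1 N).filter Nat.Prime, (1 : ℝ) / l
        ≤ ∑ l ∈ (Icc 7 N).filter Nat.Prime ∪ {2, 3, 5}, (1 : ℝ) / l :=
          sum_le_sum_of_subset_of_nonneg hsub (fun l _ _ => by positivity)
      _ ≤ ∑ l ∈ (Icc 7 N).filter Nat.Prime, (1 : ℝ) / l + ∑ l ∈ ({2, 3, 5} : Finset ℕ), (1 : ℝ) / l := by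
          rw [← sum_union_inter]
          have : 0 ≤ ∑ l ∈ (Icc 7 N).filter Nat.Prime ∩ {2, 3, 5}, (1 : ℝ) / l :=
            sum_nonneg (fun l _ => by positivity)
          linarith
      _ ≤ _ := by
          have : ∑ l ∈ ({2, 3, 5} : Finset ℕ), (1 : ℝ) / l ≤ 2 := by
            rw [sum_insert (by decide), sum_insert (by decide), sum_singleton]
            norm_num
          linarith
  have a2 : ∑ l ∈ (Icc 1 ⌊y⌋₊).filter (fun l => l.Prime ∧ l % 3 = 1), (1 : ℝ) / l =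
      ∑ l ∈ (Icc 7 N).filter Nat.Prime, if l % 3 = 1 ∧ (l : ℝ) ≤ y then (1 : ℝ) / l else 0 := by
    rw [← sum_filter, filter_filter]
    refine sum_congr ?_ (fun _ _ => rfl)
    ext l
    rw [mem_filter, mem_filter, mem_Icc, mem_Icc]
    constructor
    · rintro ⟨⟨h1, h2⟩, h3, h4⟩
      refine ⟨⟨?_, h2.trans hyN⟩, h3, h4, (Nat.le_floor_iff hy0).1 h2⟩
      by_contra hlt
      push Not at hlt
      interval_cases l <;> first | omega | exact absurd h3 (by norm_num)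
    · rintro ⟨⟨h1, h2⟩, h3, h4, h5⟩
      exact ⟨⟨by omega, Nat.le_floor h5⟩, h3, h4⟩
  have a3 : ∑ l ∈ (Icc 7 N).filter Nat.Prime, (if l ∣ a then (1 : ℝ) / l else 0) ≤
      ∑ l ∈ a.primeFactors, (1 : ℝ) / l := by
    rw [← sum_filter]
    apply sum_le_sum_of_subset_of_nonneg
    · intro l hl
      obtain ⟨h1, h2⟩ := mem_filter.1 hl
      exact Nat.mem_primeFactors.2 ⟨(mem_filter.1 h1).2, h2, by omega⟩
    · intro i _ _
      positivity
  have a4 : ∑ l ∈ (Icc 7 N).filter Nat.Prime, (1 : ℝ) / l +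
      2 * ∑ l ∈ (Icc 7 N).filter Nat.Prime, (if l % 3 = 1 ∧ (l : ℝ) ≤ y then (1 : ℝ) / l else 0) ≤
      ∑ l ∈ (Icc 7 N).filter Nat.Prime, ((SS a y l).card : ℝ) / l +
      2 * ∑ l ∈ (Icc 7 N).filter Nat.Prime, (if l ∣ a then (1 : ℝ) / l else 0) := by
    rw [mul_sum, mul_sum, ← sum_add_distrib, ← sum_add_distrib]
    refine sum_le_sum (fun l hl => ?_)
    have hp := (mem_filter.1 hl).2
    have hl0 : (0 : ℝ) < l := by exact_mod_cast hp.pos
    have hl1 : (0 : ℝ) < (1 : ℝ) / l := by positivity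
    have h1 : (1 : ℝ) ≤ (SS a y l).card := by exact_mod_cast SS_one a y l hp
    have h2 : (1 : ℝ) / l ≤ ((SS a y l).card : ℝ) / l := div_le_div_of_nonneg_right h1 hl0.le
    by_cases hc : l % 3 = 1 ∧ (l : ℝ) ≤ y
    · rw [if_pos hc]
      by_cases hd : l ∣ a
      · rw [if_pos hd]
        linarith
      · rw [if_neg hd]
        have h3 : (3 : ℝ) ≤ (SS a y l).card := by exact_mod_cast SS_three a y l hp hc.1 hc.2 hd
        have h4 : (3 : ℝ) / l ≤ ((SS a y l).card : ℝ) / l := div_le_div_of_nonneg_right h3 hl0.le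
        have h5 : (3 : ℝ) / l = 3 * (1 / l) := by ring
        linarith
    · rw [if_neg hc]
      split_ifs
      · linarith
      · linarith
  rw [a2]
  linarith

/-- CNP. -/
theorem hCNP (hS : Pool.Agent.Helper30.LK.StSVU) (hM : Pool.Agent.Helper15.AB.StMT)
    (h3 : Pool.Agent.Helper30.LK.StMR3) : StCNP := by
  classical
  obtain ⟨C, δ, hC, hδ, hδ4, hS⟩ := hS
  obtain ⟨C1, hC1, hM⟩ := hM
  obtain ⟨C3, hC3, h3⟩ := h3
  obtain ⟨K, hK⟩ : ∃ K : ℝ, K = Real.exp (C1 + 2 * C3 + 2) * (δ / 4)⁻¹ := ⟨_, rfl⟩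
  have hKpos : 0 < K := by
    rw [hK]
    positivity
  refine ⟨C * K + 1, by positivity, ?_⟩
  have ev1 : ∀ᶠ x : ℝ in atTop, Real.log x ^ (2 : ℝ) ≤ x ^ (3 / 16 : ℝ) := by
    have h := (isLittleO_log_rpow_rpow_atTop (s := (3 / 16 : ℝ)) 2 (by norm_num)).bound
      (show (0 : ℝ) < 1 by norm_num)
    filter_upwards [h, eventually_ge_atTop 1] with x hx hx1
    have h0 : 0 ≤ Real.log x := Real.log_nonneg hx1
    rw [one_mul, Real.norm_of_nonneg (Real.rpow_nonneg h0 _),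
      Real.norm_of_nonneg (Real.rpow_nonneg (by linarith) _)] at hx
    exact hx
  have ev2 : ∀ᶠ x : ℝ in atTop, 3 ≤ x ^ (δ / 4) :=
    (tendsto_rpow_atTop (by linarith)).eventually_ge_atTop 3
  -- the logarithm is small
  have lo : ∀ c : ℝ, 0 < c → ∀ᶠ t : ℝ in atTop, Real.log t ≤ c * t := by
    intro c hc
    have h := Real.isLittleO_log_id_atTop.bound hc
    filter_upwards [h, eventually_ge_atTop 1] with t ht ht1
    rw [id, Real.norm_of_nonneg (Real.log_nonneg ht1), Real.norm_of_nonneg (by linarith)] at ht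
    exact ht
  have tl : Tendsto Real.log atTop atTop := Real.tendsto_log_atTop
  have tl2 : Tendsto (fun x : ℝ => Real.log (Real.log x)) atTop atTop := tl.comp tl
  have tl3 : Tendsto (fun x : ℝ => Real.log (Real.log (Real.log x))) atTop atTop := tl.comp tl2
  have ev3 : ∀ᶠ x : ℝ in atTop, Real.log (Real.log (Real.log x)) ≤ (5 * δ) * Real.log (Real.log x) :=
    tl2.eventually (lo (5 * δ) (by linarith))
  have ev4 : ∀ᶠ x : ℝ in atTop, 1 ≤ Real.log (Real.log (Real.log x)) := tl3.eventually_ge_atTop 1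
  have ev5 : ∀ᶠ x : ℝ in atTop, Real.log (Real.log x) ≤ (1 / 40) * Real.log x :=
    tl.eventually (lo (1 / 40) (by norm_num))
  have ev6 : ∀ᶠ x : ℝ in atTop, 1 ≤ Real.log (Real.log x) := tl2.eventually_ge_atTop 1
  have ev := (ev1.and (ev2.and (ev3.and (ev4.and (ev5.and ev6))))).and (eventually_ge_atTop (16 : ℝ))
  obtain ⟨x₀, hx₀⟩ := eventually_atTop.1 (tendsto_natCast_atTop_atTop.eventually ev)
  refine ⟨x₀, fun x a Y hx ha hxY hYx => ?_⟩
  obtain ⟨⟨hlog, hz3, hl3, hl31, hl2, hl21⟩, h16⟩ := hx₀ x hx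
  rw [Real.rpow_two] at hlog
  have hx0 : (0 : ℝ) < x := by linarith
  have hx1 : (1 : ℝ) ≤ x := by linarith
  have hxY' : (x : ℝ) ≤ 2 * (Y : ℝ) := by exact_mod_cast hxY
  have hxy : (x : ℝ) ^ (1 / 4 : ℝ) ≤ Y := by
    have h1 : (x : ℝ) ^ (1 / 4 : ℝ) ≤ (x : ℝ) ^ (1 / 2 : ℝ) :=
      Real.rpow_le_rpow_of_exponent_le hx1 (by norm_num)
    rw [← Real.sqrt_eq_rpow] at h1
    have h4 : (4 : ℝ) ≤ √(x : ℝ) := by
      rw [show (4 : ℝ) = √16 by
        rw [show (16 : ℝ) = 4 ^ 2 by norm_num, Real.sqrt_sq (by norm_num)]]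
      exact Real.sqrt_le_sqrt h16
    have h5 := Real.mul_self_sqrt hx0.le
    nlinarith
  have hy2 : (2 : ℝ) ≤ Y := by linarith
  have hy0 : (0 : ℝ) < Y := by linarith
  have hlx : 0 < Real.log x := Real.log_pos (by linarith)
  -- the number `yy x`
  obtain ⟨u, hu⟩ : ∃ u : ℝ, u = Real.log x := ⟨_, rfl⟩
  obtain ⟨q, hq⟩ : ∃ q : ℝ, q = Real.log (Real.log x) := ⟨_, rfl⟩
  obtain ⟨t, ht⟩ : ∃ t : ℝ, t = Real.log (Real.log (Real.log x)) := ⟨_, rfl⟩
  rw [← ht, ← hq] at hl3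
  rw [← ht] at hl31
  rw [← hq, ← hu] at hl2
  rw [← hq] at hl21
  have hu0 : 0 < u := by rw [hu]; exact hlx
  have hq0 : 0 < q := by linarith
  have hlyy : Real.log (yy x) = u * t / (20 * q) := by
    rw [yy, Real.log_exp, ← ht, ← hq, ← hu]
  obtain ⟨w, hw⟩ : ∃ w : ℝ, w = u * t / (20 * q) := ⟨_, rfl⟩
  have hw2 : 2 ≤ w := by
    rw [hw, le_div_iff₀ (by positivity)]
    have h1 : 2 * (20 * q) ≤ u := by linarith
    have h2 : u ≤ u * t := le_mul_of_one_le_right hu0.le hl31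
    linarith
  have hwu : w ≤ δ / 4 * u := by
    rw [hw, div_le_iff₀ (by positivity)]
    have h1 : u * t ≤ u * (5 * δ * q) := mul_le_mul_of_nonneg_left hl3 hu0.le
    linarith
  have hwu' : w ≤ u := by
    have h1 : δ / 4 * u ≤ 1 * u := mul_le_mul_of_nonneg_right (by linarith) hu0.le
    linarith
  obtain ⟨y, hy⟩ : ∃ y : ℝ, y = yy x := ⟨_, rfl⟩
  have hyw : Real.log y = w := by rw [hy, hlyy, hw]
  have hypos : 0 < y := by rw [hy]; exact Real.exp_pos _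
  have hyexp : y = Real.exp w := by rw [← hyw, Real.exp_log hypos]
  have hy3 : 3 ≤ y := by
    rw [hyexp]
    have h1 := Real.add_one_le_exp w
    linarith
  have hyz : y ≤ (Y : ℝ) ^ δ := by
    have h1 : ((x : ℝ) ^ (1 / 4 : ℝ)) ^ δ ≤ (Y : ℝ) ^ δ :=
      Real.rpow_le_rpow (Real.rpow_nonneg hx0.le _) hxy hδ.le
    rw [← Real.rpow_mul hx0.le] at h1
    have e : (1 / 4 : ℝ) * δ = δ / 4 := by ring
    rw [e, Real.rpow_def_of_pos hx0, ← hu] at h1
    refine le_trans ?_ h1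
    rw [hyexp]
    apply Real.exp_le_exp.2
    linarith
  -- `z = Y ^ δ`
  have hz : (3 : ℝ) ≤ (Y : ℝ) ^ δ := hy3.trans hyz
  have hsieve := hS Y (by exact_mod_cast hy2) (SS a y) (fun l hl _ =>
    ⟨fun s hs => mem_range.1 (mem_filter.1 hs).1, SS_card_le a y l hl⟩)
  -- the inclusion
  obtain ⟨B, hB⟩ : ∃ B : Finset ℕ, B = (Icc 1 Y).filter (fun m : ℕ => ∀ l : ℕ, l.Prime → 7 ≤ l →
    (l : ℝ) ≤ (Y : ℝ) ^ δ → m % l ∉ SS a y l) := ⟨_, rfl⟩
  rw [← hB] at hsieve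
  have hsmall : (Y : ℝ) ^ (1 / 4 : ℝ) ≤ Y / Real.log x ^ 2 := by
    rw [le_div_iff₀ (by positivity)]
    have h1 : Real.log x ^ 2 ≤ (Y : ℝ) ^ (3 / 4 : ℝ) := by
      refine hlog.trans ?_
      have h2 : ((x : ℝ) ^ (1 / 4 : ℝ)) ^ (3 / 4 : ℝ) ≤ (Y : ℝ) ^ (3 / 4 : ℝ) :=
        Real.rpow_le_rpow (Real.rpow_nonneg hx0.le _) hxy (by norm_num)
      rw [← Real.rpow_mul hx0.le] at h2
      have e : (1 / 4 : ℝ) * (3 / 4) = 3 / 16 := by norm_num
      rwa [e] at h2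
    calc (Y : ℝ) ^ (1 / 4 : ℝ) * Real.log x ^ 2 ≤ (Y : ℝ) ^ (1 / 4 : ℝ) * (Y : ℝ) ^ (3 / 4 : ℝ) :=
          mul_le_mul_of_nonneg_left h1 (Real.rpow_nonneg hy0.le _)
      _ = Y := by
          rw [← Real.rpow_add hy0]
          norm_num
  -- the exponential
  have hw' : 0 < δ / 4 * u := mul_pos (by linarith) hu0
  have hlz : δ / 4 * u ≤ Real.log ((Y : ℝ) ^ δ) := by
    rw [Real.log_rpow hy0]
    have h1 : Real.log ((x : ℝ) ^ (1 / 4 : ℝ)) ≤ Real.log Y :=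
      Real.log_le_log (Real.rpow_pos_of_pos hx0 _) hxy
    rw [Real.log_rpow hx0, ← hu] at h1
    nlinarith
  have hll : Real.log (δ / 4 * u) ≤ Real.log (Real.log ((Y : ℝ) ^ δ)) :=
    Real.log_le_log hw' hlz
  have hsum := sum_ge a ha y ⌊(Y : ℝ) ^ δ⌋₊ (Nat.floor_mono hyz) hypos.le
  have hm1 := (abs_le.1 (hM _ hz)).1
  have hm3 := (h3 _ hy3).1
  rw [hyw] at hm3
  obtain ⟨G, hG⟩ : ∃ G : ℝ, G = 2 * ∑ l ∈ a.primeFactors, (1 : ℝ) / l := ⟨_, rfl⟩
  have hGg : gg a = Real.exp G := by rw [gg, hG]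
  have hG0 : 0 ≤ G := by
    rw [hG]
    exact mul_nonneg (by norm_num) (sum_nonneg (fun i _ => by positivity))
  rw [← hG] at hsum
  have hw0 : 0 < w := by linarith
  have hexp : Real.exp (-∑ l ∈ (Icc 7 ⌊(Y : ℝ) ^ δ⌋₊).filter Nat.Prime, ((SS a y l).card : ℝ) / l) ≤
      K * (Real.exp G / (u * w)) := by
    have h1 : -∑ l ∈ (Icc 7 ⌊(Y : ℝ) ^ δ⌋₊).filter Nat.Prime, ((SS a y l).card : ℝ) / l ≤
        (C1 + 2 * C3 + 2) + (G + (-(Real.log (δ / 4 * u)) + -(Real.log w))) := by linarith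
    refine (Real.exp_le_exp.2 h1).trans (le_of_eq ?_)
    rw [Real.exp_add (C1 + 2 * C3 + 2), Real.exp_add G, Real.exp_add (-(Real.log (δ / 4 * u))),
      Real.exp_neg, Real.exp_neg, Real.exp_log hw', Real.exp_log hw0, hK, mul_inv]
    have e1 : Real.exp G / (u * w) = Real.exp G * (u⁻¹ * w⁻¹) := by rw [div_eq_mul_inv, mul_inv]
    rw [e1]
    ring
  have hB' : (B.card : ℝ) ≤ C * Y * (K * (Real.exp G / (u * w))) :=
    hsieve.trans (mul_le_mul_of_nonneg_left hexp (by positivity))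
  have hsmall2 : (Y : ℝ) ^ (1 / 4 : ℝ) ≤ Real.exp G * Y / (u * w) := by
    refine hsmall.trans ?_
    rw [← hu]
    have h1 : 1 ≤ Real.exp G := Real.one_le_exp hG0
    have h2 : (Y : ℝ) ≤ Real.exp G * Y := le_mul_of_one_le_left hy0.le h1
    have h4 : u * w ≤ u ^ 2 := by
      rw [sq]
      exact mul_le_mul_of_nonneg_left hwu' hu0.le
    exact div_le_div₀ (by positivity) h2 (by positivity) h4
  have hfin : (B.card : ℝ) + (Y : ℝ) ^ (1 / 4 : ℝ) ≤ (C * K + 1) * (gg a * Y / (Real.log x * Real.log (yy x))) := by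
    rw [← hy, hyw, ← hu, hGg]
    have h1 : C * Y * (K * (Real.exp G / (u * w))) + Real.exp G * Y / (u * w) =
      (C * K + 1) * (Real.exp G * Y / (u * w)) := by ring
    linarith
  refine le_trans ?_ hfin
  have h1 : (((B ∪ Icc 1 ⌊(Y : ℝ) ^ δ⌋₊).card : ℕ) : ℝ) ≤ (B.card : ℝ) + (Y : ℝ) ^ (1 / 4 : ℝ) := by
    have h1 : (B ∪ Icc 1 ⌊(Y : ℝ) ^ δ⌋₊).card ≤ B.card + ⌊(Y : ℝ) ^ δ⌋₊ := by
      refine (card_union_le _ _).trans ?_
      rw [Nat.card_Icc]
      omega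
    have h2 : ((⌊(Y : ℝ) ^ δ⌋₊ : ℕ) : ℝ) ≤ (Y : ℝ) ^ δ := Nat.floor_le (Real.rpow_nonneg hy0.le _)
    have h3 : (Y : ℝ) ^ δ ≤ (Y : ℝ) ^ (1 / 4 : ℝ) :=
      Real.rpow_le_rpow_of_exponent_le (by linarith) hδ4
    have h4 : (((B ∪ Icc 1 ⌊(Y : ℝ) ^ δ⌋₊).card : ℕ) : ℝ) ≤ B.card + ((⌊(Y : ℝ) ^ δ⌋₊ : ℕ) : ℝ) := by
      exact_mod_cast h1
    linarith
  refine le_trans (Nat.cast_le.2 (card_le_card ?_)) h1
  intro p hp
  obtain ⟨hp1, hp2, hp3⟩ := mem_filter.1 hp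
  rw [mem_union]
  rcases le_or_gt (p : ℝ) ((Y : ℝ) ^ δ) with hle | hgt
  · right
    rw [mem_Icc]
    exact ⟨(mem_Icc.1 hp1).1, Nat.le_floor hle⟩
  · left
    rw [hB]
    refine mem_filter.2 ⟨hp1, fun l hl h7 hlz hmem => ?_⟩
    obtain ⟨-, h | ⟨hl3', hly, h⟩⟩ := mem_filter.1 hmem
    · have h1 : l ∣ p := Nat.dvd_of_mod_eq_zero h
      have h2 : l = p := (Nat.prime_dvd_prime_iff_eq hl hp2).1 h1
      rw [h2] at hlz
      linarith
    · refine hp3 l hl hl3' (by rw [← hy]; exact hly) ?_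
      rw [dvd_iff] at h ⊢
      rwa [ZMod.natCast_mod] at h

end Pool.Agent.Helper1.LQ
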